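import Pool.Agent.H207.BT.Stm2
import Pool.Agent.H345.HY211.NORM4

/-!
# Normalisation for all combinatorial types
(adaptation of `Pool/Agent/H345/HY211/NORM4.lean`)
-/

set_option autoImplicit false

open Topology Filter Metric Set MeasureTheory Polynomial

namespace Pool.Agent.H813.BT207

open Pool.Agent.H790R3.RB Pool.Agent.H790R3.RB.ALL Pool.Agent.H211.HY Pool.Agent.H922.HY211
  Pool.Agent.H345.HY211 Pool.Agent.H207.BT

theorem t_NORM5 : Pool.Agent.H207.BT.S_NORM5 := by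
  intro d x hX hyp'
  have hd := hX.hd
  obtain ⟨t, ht⟩ := avoid x hd hX.ce
  obtain ⟨cj, hcd, -, -, -, hcj⟩ := CJ d
  have hdet : (1 : ℂ) * 1 - 0 * t = 1 := by ring
  have hdet' : (1 : ℂ) * 1 - 0 * (-t) = 1 := by ring
  set m : (ℂ × ℂ) × (ℂ × ℂ) := ((1, 0), (t, 1)) with hm
  set mi : (ℂ × ℂ) × (ℂ × ℂ) := ((1, 0), (-t, 1)) with hmi
  set y : CV d := cj m x with hy
  have hR1 : Rel 1 0 t 1 x y := fun p => by rw [hy, hcj m x p]
  have hR2 : ∀ z : CV d, Rel 1 0 (-t) 1 z (cj mi z) := fun z p => by rw [hcj mi z p]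
  have hNDy : ND y := nd_of_rel hdet hR1 hX.nd
  have hback : cj mi y = x := by
    apply hF_inj
    intro p
    rw [hR2 y p]
    have e1 := rel_apply hdet hR1 p
    have e2 : ((1 * p.1 - 0 * p.2, 1 * p.2 - -t * p.1) : ℂ × ℂ) =
        (1 * p.1 + 0 * p.2, t * p.1 + 1 * p.2) := by
      refine Prod.ext ?_ ?_
      · change 1 * p.1 - 0 * p.2 = 1 * p.1 + 0 * p.2
        ring
      · change 1 * p.2 - -t * p.1 = t * p.1 + 1 * p.2
        ring
    rw [e2, e1]
    refine Prod.ext ?_ ?_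
    · change 1 * (1 * (hF x p).1 + 0 * (hF x p).2) +
        0 * (t * (hF x p).1 + 1 * (hF x p).2) = (hF x p).1
      ring
    · change -t * (1 * (hF x p).1 + 0 * (hF x p).2) +
        1 * (t * (hF x p).1 + 1 * (hF x p).2) = (hF x p).2
      ring
  -- the hypotheses for `y`
  have hHy : Hyp0 y := ⟨hd, hNDy, CE_L hd hX.nd hdet hR1 hX.ce, fun hL =>
    hX.lat (Lat_L hd hdet hR1 hL)⟩
  have hNy2 : ∀ c : ℂ × ℂ, c ≠ 0 → wr y c = 0 → ∀ n : ℕ, ((hF y)^[n] c).2 ≠ 0 := by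
    intro q hq hw n
    obtain ⟨p, hp, rfl⟩ := L_surj hdet hq
    rw [wr_L hd hdet hR1] at hw
    rw [hF_iter_L hdet hR1]
    change t * ((hF x)^[n] p).1 + 1 * ((hF x)^[n] p).2 ≠ 0
    rw [one_mul]
    exact ht p hp hw hX.nd n
  have hNy : Nrm y := ⟨fun h => hNy2 (1, 0) (by simp) h 0 rfl, hNy2⟩
  have hcont : Continuous (fun z : CV d => cj mi z) :=
    hcd.continuous.comp (continuous_const.prodMk continuous_id)
  obtain ⟨K, hK, hKc⟩ := cho_bd hdet'
  have hK0 : 0 < K := by linarith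
  obtain ⟨k, c₀, mm, a, ha, hmm, hc0, hcr, hwr, hall⟩ := hyp' y hHy hNy
  refine ⟨k, fun i => L 1 0 (-t) 1 (c₀ i), mm, a, ha, hmm, fun i => L_ne hdet' (hc0 i),
    fun i j hij => ?_, fun q => ?_, fun φ ε hε => ?_⟩
  · rw [cr_L hdet']
    exact hcr i j hij
  · have h1 := fac_L hd hdet' (hR2 y) hwr q
    rwa [hback] at h1
  · obtain ⟨δ, hδ, hδε⟩ := Metric.continuous_iff.1 hcont y ε hε
    obtain ⟨z, c', a', hz, hNDz, ha', hc', hcr', hwr', hcho, hn⟩ :=
      hall φ (min δ (ε / K)) (lt_min hδ (by positivity))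
    refine ⟨cj mi z, fun i => L 1 0 (-t) 1 (c' i), a', ?_, nd_of_rel hdet' (hR2 z) hNDz, ha',
      fun i => L_ne hdet' (hc' i), fun i j hij => ?_, fun q => fac_L hd hdet' (hR2 z) hwr' q,
      fun i => ?_, fun i => ?_⟩
    · have h1 := hδε z (by
        rw [dist_eq_norm]
        exact hz.trans_le (min_le_left _ _))
      rw [hback, dist_eq_norm] at h1
      exact h1
    · rw [cr_L hdet']
      exact hcr' i j hij
    · refine (hKc (c' i) (c₀ i) (hc' i) (hc0 i)).1.trans_lt ?_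
      have h1 : cho (c' i) (c₀ i) < ε / K := (hcho i).trans_le (min_le_right _ _)
      rw [lt_div_iff₀ hK0] at h1
      rwa [mul_comm]
    · obtain ⟨n, hn1, hn2, hn3⟩ := hn i
      refine ⟨n, hn1, ?_, fun j hj1 hj2 => ?_⟩
      · rw [hF_iter_L hdet' (hR2 z), cr_L hdet']
        exact hn2
      · rw [hF_iter_L hdet' (hR2 z), wr_L hd hdet' (hR2 z)]
        exact hn3 j hj1 hj2

end Pool.Agent.H813.BT207
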